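import Pool.Agent.LE.StmtsIF
import Pool.Agent.Helper3_LIR.PIE

/-!
# The final bound, all dimensions
-/

set_option autoImplicit false

open MeasureTheory ProbabilityTheory

open scoped ENNReal BigOperators NNReal

noncomputable section

namespace Pool.Agent.LE.IR.H93F

open Pool.Agent.Anderson hiding box mem_box card_box
open Pool.Agent.Loc Pool.Agent.Mob Pool.Agent.Helper54.Bal
  Pool.Agent.Helper96.EXP Pool.Agent.BED
open Pool.Agent.LE.MN Pool.Agent.LE.CL Pool.Agent.LE.IR.H3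

theorem pif (cpf : CpfStmt) (crg : CrgStmt) : PifStmt := by
  intro d hd
  have hd0 : (3 : ℝ) ≤ d := by exact_mod_cast hd
  obtain ⟨K₀, hK₀, hcpe⟩ := cpf d hd
  refine ⟨K₀, hK₀, ?_⟩
  intro Kε hKε
  obtain ⟨c, K, hc, hc4, hK, h⟩ := hcpe (2 * (d : ℝ) + 1) Kε (by linarith) hKε
  obtain ⟨C, hC, hg⟩ := crg d (by omega)
  obtain ⟨K', hK'⟩ : ∃ K' : ℝ, K' = C * K * (K + 1 + K₀) * K + 100 := ⟨_, rfl⟩
  have hCK : 1 ≤ C * K := one_le_mul_of_one_le_of_one_le hC hK
  have h2 : 1 ≤ C * K * (K + 1 + K₀) := one_le_mul_of_one_le_of_one_le hCK (by linarith)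
  have hB0 : K ≤ C * K * (K + 1 + K₀) * K := by
    nlinarith
  have hK1 : K ≤ K' := by rw [hK']; linarith
  have hK2 : C * K * (K + 1 + K₀) * K ≤ K' := by rw [hK']; linarith
  have hK3 : 100 ≤ K' := by rw [hK']; linarith
  refine ⟨c, K', hc, hc4, by linarith, ?_⟩
  intro M' v σ t z μ ε p lam L g hσ hσc hv ht hL hz hμ1 hμ2 hl1 hl2 hε hε2 hK5 hM1 hM2 hp hp0
    hp1 hLy
  have hσ0 : 0 < |σ| := abs_pos.2 hσ
  have hσ4 : |σ| ≤ 1 / 4 := hσc.trans hc4
  have ht1 : 100 ≤ t := hK3.trans ht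
  have ht0 : 0 < t := by linarith
  have hG := growth_pos (d := d) (t := t) (by linarith)
  have hlt : 0 ≤ Real.log t := Real.log_nonneg (by linarith)
  have hls : 1 ≤ Real.log (1 / |σ|) := by
    rw [Real.le_log_iff_exp_le (by positivity)]
    have h1 := Real.exp_one_lt_d9
    have h2 : 4 ≤ 1 / |σ| := by
      rw [le_div_iff₀ hσ0]
      linarith
    linarith
  have hL1 : 1 ≤ L := by rw [hL]; linarith
  have hlam0 : 0 < lam := lt_of_lt_of_le (by positivity) hl1
  have hlam1 : lam ≤ 1 := by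
    refine hl2.trans ?_
    rw [div_le_one ht0]
    exact ht1
  have hts : 1 ≤ t / |σ| := by
    rw [one_le_div hσ0]
    linarith
  have hts0 : 0 < t / |σ| := by linarith
  have hq0 : 0 < |σ| / t := by positivity
  have hq1 : |σ| / t < 1 := by
    rw [div_lt_one ht0]
    linarith
  have hqi : |σ| / t = (t / |σ|)⁻¹ := (inv_div _ _).symm
  -- the hypothesis with the smaller constant
  have hK5' : K * σ ^ 2 * growth d t * L ^ (2 * d + 10) ≤ 1 := by
    refine le_trans ?_ hK5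
    gcongr
  obtain ⟨n, ρ, J, s, hs1, hsK, hρ1, hρ, hJ1, hJ, hn1, hn, hnl, hP⟩ := h M' v σ t z μ ε p lam L hσ
    hσc hv (hK1.trans ht) hL hz hμ1 hμ2 hl1 hl2 hε hε2 hK5' hM1 hM2 hp hp0 hp1
  -- the energy
  have hM0 : M' ≠ 0 := by
    intro h0
    rw [h0] at hM1
    have := Real.rpow_pos_of_pos hts0 K₀
    simp only [Nat.cast_zero] at hM1
    linarith
  have hzl : |z - lam| ≤ 2 * d + 2 := by
    have hNZ : NeZero M' := ⟨hM0⟩
    have h3 := hp hNZ
    have hp2 : p < 1 := by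
      refine hp1.trans_lt ?_
      exact Real.rpow_lt_one hq0.le hq1 (by linarith)
    have h4 : ∃ V : Tor d M' → ℝ, FlatE ε z μ V := by
      by_contra hcon
      push Not at hcon
      have h5 : {V : Tor d M' → ℝ | ¬ FlatE ε z μ V} = Set.univ := by
        ext V
        simp [hcon V]
      rw [h5] at h3
      unfold gau at h3
      rw [measure_univ] at h3
      have h6 : ENNReal.ofReal p < 1 := by
        rw [← ENNReal.ofReal_one]
        exact (ENNReal.ofReal_lt_ofReal_iff (by norm_num)).2 hp2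
      exact absurd h3 (not_le.2 h6)
    obtain ⟨V, hV⟩ := h4
    have h5 := z_gt hV
    rw [abs_le]
    constructor
    · linarith
    · linarith
  have hn0 : (0 : ℝ) < n := by exact_mod_cast hn1
  have hρ0 : (1 : ℝ) ≤ ρ := by exact_mod_cast hρ1
  have hJ0 : (1 : ℝ) ≤ J := by exact_mod_cast hJ1
  have key := hg σ (z - lam) s (4 * (|σ| / t) ^ (2 * (d : ℝ) + 1)) g J n ρ hσ0 (by linarith) hzl
    hs1 hJ1 hn1 hρ1 hLy (by positivity) (by
      have h3 : (n : ℝ) ≤ (|σ| / t) ^ (-(2 * (d : ℝ))) := by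
        rw [hqi, Real.inv_rpow hts0.le, Real.rpow_neg hts0.le, inv_inv]
        refine hn.trans (le_of_eq ?_)
        rw [← Real.rpow_natCast]
        push_cast
        rfl
      calc 4 * (|σ| / t) ^ (2 * (d : ℝ) + 1) * n
          ≤ 4 * (|σ| / t) ^ (2 * (d : ℝ) + 1) * (|σ| / t) ^ (-(2 * (d : ℝ))) := by
            gcongr
        _ = 4 * (|σ| / t) := by
            rw [mul_assoc, ← Real.rpow_add hq0]
            have : 2 * (d : ℝ) + 1 + -(2 * (d : ℝ)) = 1 := by ring
            rw [this, Real.rpow_one]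
        _ ≤ 1 := by
            have : |σ| / t ≤ 1 / 4 / 100 := by
              gcongr
            linarith) hP
  have hlogρ : Real.log ρ ≤ K₀ * L := by
    calc Real.log ρ ≤ Real.log ((t / |σ|) ^ K₀) := Real.log_le_log (by linarith) hρ
      _ = K₀ * L := by
          rw [Real.log_rpow hts0, hL, Real.log_div ht0.ne' hσ0.ne', one_div, Real.log_inv]
          ring
  obtain ⟨B, hB⟩ : ∃ B : ℝ, B = K * σ ^ 2 * growth d t * Real.sqrt lam * L ^ (d + 4) := ⟨_, rfl⟩
  rw [← hB] at hnl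
  have hBp : 0 < B := by
    rw [hB]
    have hs0 : 0 < Real.sqrt lam := Real.sqrt_pos.2 hlam0
    have h3 : 0 < σ ^ 2 := by positivity
    positivity
  have hs0 : 0 < Real.sqrt lam := Real.sqrt_pos.2 hlam0
  have hnd : (n : ℝ) ^ (-(1 / (d : ℝ))) ≤ B := by
    calc (n : ℝ) ^ (-(1 / (d : ℝ))) ≤ (B ^ (-(d : ℝ))) ^ (-(1 / (d : ℝ))) :=
          Real.rpow_le_rpow_of_nonpos (Real.rpow_pos_of_pos hBp _) hnl
            (by rw [neg_nonpos]; positivity)
      _ = B := by
          rw [← Real.rpow_mul hBp.le]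
          have : -(d : ℝ) * -(1 / (d : ℝ)) = 1 := by
            field_simp
          rw [this, Real.rpow_one]
  have hsum : s + Real.log (1 / |σ|) + Real.log ρ ≤ (K + 1 + K₀) * L := by
    have : Real.log (1 / |σ|) ≤ L := by rw [hL]; linarith
    linarith
  have hsum0 : 0 ≤ s + Real.log (1 / |σ|) + Real.log ρ := by
    have := Real.log_nonneg hρ0
    linarith
  refine key.trans ?_
  calc C * J * (s + Real.log (1 / |σ|) + Real.log ρ) * (n : ℝ) ^ (-(1 / (d : ℝ)))
      ≤ C * (K * L ^ 2 / Real.sqrt lam) * ((K + 1 + K₀) * L) * B := by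
        gcongr
    _ = C * K * (K + 1 + K₀) * K * σ ^ 2 * growth d t * L ^ (d + 7) := by
        rw [hB]
        field_simp
        ring
    _ ≤ C * K * (K + 1 + K₀) * K * σ ^ 2 * growth d t * L ^ (d + 8) := by
        have h3 : L ^ (d + 7) ≤ L ^ (d + 8) := pow_le_pow_right₀ hL1 (by omega)
        gcongr
    _ ≤ _ := by
        gcongr

end Pool.Agent.LE.IR.H93F
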