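import Pool.Agent.LE.StmtsIF
import Pool.Agent.Helper54_LIR.CPEg

/-!
# CPF, part a: numbers and events

These are copies of `basic`, `NumB`, `numB`, `ev_prob` of `Helper54_LIR` (helper54) with the weaker
hypothesis `K σ² G L^(2 d + 10) ≤ 1`.
-/

set_option autoImplicit false

open MeasureTheory ProbabilityTheory Function Filter

open scoped ENNReal BigOperators Topology NNReal

noncomputable section

namespace Pool.Agent.LE.IR.H93F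

open Pool.Agent.Anderson hiding box mem_box card_box
open Pool.Agent.Loc Pool.Agent.Mob Pool.Agent.Helper54.Bal
  Pool.Agent.Helper96.EXP Pool.Agent.BED
open Pool.Agent.LE.MN Pool.Agent.LE.CL Pool.Agent.LE.IR.H54

theorem basicF {d : ℕ} {K t lam L σ : ℝ} (hd : 3 ≤ d) (hK : 100 ≤ K) (hσ : σ ≠ 0)
    (hσc : |σ| ≤ 1 / 4) (ht : K ≤ t) (hL : L = Real.log (1 / |σ|) + Real.log t)
    (h1 : 50 / t ≤ lam) (h2 : lam ≤ 100 / t)
    (hs : K * σ ^ 2 * growth d t * L ^ (2 * d + 10) ≤ 1) :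
    1 ≤ L ∧ 1 ≤ growth d t ∧ lam ^ (((d : ℝ) - 4) / 2) ≤ growth d t ∧
      K * (σ ^ 2 * growth d t) * L ^ (2 * d + 10) ≤ 1 ∧ t / |σ| = Real.exp L ∧
      |σ| / t = Real.exp (-L) ∧ K ≤ Real.exp L ∧ t ≤ Real.exp L ∧ 1 / |σ| ≤ Real.exp L ∧
      Real.log t ≤ L := by
  have hσ0 : 0 < |σ| := abs_pos.2 hσ
  have ht100 : 100 ≤ t := hK.trans ht
  have ht0 : 0 < t := by linarith
  have hG1 : 1 ≤ growth d t := one_le_growth d (by linarith)
  have hP := pw_le hd ht100 h1 h2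
  have hs1 : 1 ≤ 1 / |σ| := by
    rw [le_div_iff₀ hσ0]
    linarith
  have hls : 0 ≤ Real.log (1 / |σ|) := Real.log_nonneg hs1
  have hlt : 1 ≤ Real.log t := by
    rw [Real.le_log_iff_exp_le ht0]
    have := Real.exp_one_lt_d9
    linarith
  have hexp : Real.exp L = t / |σ| := by
    rw [hL, Real.exp_add, Real.exp_log (by positivity), Real.exp_log ht0]
    ring
  have hts : t ≤ t / |σ| := by
    rw [le_div_iff₀ hσ0]
    nlinarith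
  refine ⟨by linarith, hG1, hP, ?_, hexp.symm, ?_, ?_, ?_, ?_, by linarith⟩
  · calc K * (σ ^ 2 * growth d t) * L ^ (2 * d + 10) =
          K * σ ^ 2 * growth d t * L ^ (2 * d + 10) := by ring
      _ ≤ 1 := hs
  · rw [Real.exp_neg, hexp, inv_div]
  · rw [hexp]
    linarith
  · rw [hexp]
    exact hts
  · rw [hexp]
    gcongr
    linarith

/-- the basic numbers -/
structure NumF (d M' : ℕ) (K K₀ A₀ σ t μ ε₀ p lam L G P Kε cE cT : ℝ) : Prop where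
  hL1 : 1 ≤ L
  hG1 : 1 ≤ G
  hP0 : 0 ≤ P
  hPG : P ≤ G
  hS1 : K * (σ ^ 2 * G) * L ^ (2 * d + 10) ≤ 1
  hKe : K ≤ Real.exp L
  hte : t ≤ Real.exp L
  hse : 1 / |σ| ≤ Real.exp L
  hexp : t / |σ| = Real.exp L
  hlogt : Real.log t ≤ L
  ht100 : 100 ≤ t
  hl0 : 0 < lam
  hl1 : 50 / t ≤ lam
  hμ0 : 0 < μ
  hμl : μ * lam ≤ 1200
  hμl2 : 500 ≤ lam * μ
  hμt : μ ≤ 12 * t
  hlcE : lam ≤ cE ^ 2 / 4
  hlcT : lam ≤ cT
  hl40 : 40 * d * lam ≤ 1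
  hlam1 : lam ≤ 1
  hX0 : 0 < σ ^ 2 * G
  hM1 : Real.exp (K₀ * L) ≤ M'
  hM2 : (M' : ℝ) ≤ 2 * Real.exp (K₀ * L)
  hMe : Real.exp (60 * L) ≤ M'
  hM0 : (1 : ℝ) ≤ M'
  hp : 0 ≤ p
  hpA : p ≤ Real.exp (-(A₀ * L))
  hε₀2 : ε₀ ^ 2 ≤ Kε * L * (σ ^ 2 * G)

theorem numF {d M' : ℕ} {CF CK CB CS AT cT CT c₁ cE c₂ CE A₀ Kε m K₀ ct Q K₃ a₀ C₁ c₃ K : ℝ}
    (hcst : Cst d CF CK CB CS AT cT CT c₁ cE c₂ CE A₀ Kε m K₀ ct Q K₃ a₀ C₁ c₃ K) (hd : 3 ≤ d)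
    (hK₀ : 60 ≤ K₀) (hcE : 0 < cE) (hcT : 0 < cT)
    {σ t μ ε₀ p lam L : ℝ} (hσ : σ ≠ 0) (hσc : |σ| ≤ 1 / 4) (ht : K ≤ t)
    (hL : L = Real.log (1 / |σ|) + Real.log t) (hμ1 : 10 * t ≤ μ) (hμ2 : μ ≤ 12 * t)
    (hl1 : 50 / t ≤ lam) (hl2 : lam ≤ 100 / t)
    (hε₀2 : ε₀ ^ 2 ≤ Kε * L * σ ^ 2 * growth d t)
    (hstar : K * σ ^ 2 * growth d t * L ^ (2 * d + 10) ≤ 1)
    (hM1 : (t / |σ|) ^ K₀ ≤ M') (hM2 : M' ≤ 2 * (t / |σ|) ^ K₀) (hp : 0 ≤ p)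
    (hpA : p ≤ (|σ| / t) ^ A₀) :
    NumF d M' K K₀ A₀ σ t μ ε₀ p lam L (growth d t) (lam ^ (((d : ℝ) - 4) / 2)) Kε cE cT := by
  have hK100 := hcst.hK100
  have hd' : (3 : ℝ) ≤ d := by exact_mod_cast hd
  obtain ⟨hL1, hG1, hPG, hS1, hexp, hexp2, hKe, hte, hse, hlogt⟩ :=
    basicF hd hK100 hσ hσc ht hL hl1 hl2 hstar
  have hσ0 : 0 < |σ| := abs_pos.2 hσ
  have hσ2 : 0 < σ ^ 2 := by positivity
  have hK0 : 0 ≤ K := by linarith
  have ht100 : 100 ≤ t := hK100.trans ht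
  have ht0 : 0 < t := by linarith
  have hl0 : 0 < lam := lt_of_lt_of_le (by positivity) hl1
  have hG0 : 0 < growth d t := by linarith
  have hL0 : 0 < L := by linarith
  have hμ0 : 0 < μ := by linarith
  have hμl : μ * lam ≤ 1200 := by
    calc μ * lam ≤ (12 * t) * (100 / t) := by gcongr
      _ = 1200 := by
        field_simp
        norm_num
  have hμl2 : 500 ≤ lam * μ := by
    calc (500 : ℝ) = (50 / t) * (10 * t) := by
          field_simp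
          norm_num
      _ ≤ lam * μ := by gcongr
  rw [hexp] at hM1 hM2
  rw [hexp2] at hpA
  rw [exp_rpow] at hM1 hM2 hpA
  have hpA' : p ≤ Real.exp (-(A₀ * L)) := hpA.trans (le_of_eq (by ring_nf))
  have hMe : Real.exp (60 * L) ≤ M' := by
    refine le_trans (Real.exp_le_exp.2 ?_) hM1
    gcongr
  have hM1' : (1 : ℝ) ≤ M' := (Real.one_le_exp (by positivity)).trans hMe
  have hl100 : lam ≤ 100 / K := hl2.trans (by gcongr)
  have hlcE : lam ≤ cE ^ 2 / 4 := by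
    have k13 := hcst.k13
    refine hl100.trans ?_
    rw [div_le_iff₀ (by linarith)]
    rw [div_le_iff₀ (by positivity)] at k13
    linarith
  have k14 := hcst.k14
  have hlcT : lam ≤ cT := by
    refine hl100.trans ?_
    have h1 : 100 / cT ≤ K := by
      have : 0 ≤ 4000 * (d : ℝ) := by positivity
      linarith
    rw [div_le_iff₀ (by linarith)]
    rw [div_le_iff₀ (by positivity)] at h1
    linarith
  have hl1' : 40 * d * lam ≤ 1 := by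
    have h1 : 4000 * (d : ℝ) ≤ K := by
      have : 0 ≤ 100 / cT := by positivity
      linarith
    calc 40 * d * lam ≤ 40 * d * (100 / K) := by gcongr
      _ = 4000 * d / K := by ring
      _ ≤ 1 := by
        rw [div_le_one (by linarith)]
        exact h1
  have hlam1 : lam ≤ 1 := by nlinarith
  exact ⟨hL1, hG1, by positivity, hPG, hS1, hKe, hte, hse, hexp, hlogt, ht100, hl0, hl1, hμ0,
    hμl, hμl2, hμ2, hlcE, hlcT, hl1', hlam1, by positivity, hM1, hM2, hMe, hM1', hp, hpA',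
    hε₀2.trans (le_of_eq (by ring))⟩

/-- the probability part: flatness, the low frequency part, the Khintchine inequality -/
theorem ev_probF {d M' : ℕ} [NeZero M']
    {CF CK CB CS AT cT CT c₁ cE c₂ CE A₀ Kε m K₀ ct Q K₃ a₀ C₁ c₃ K : ℝ}
    (hcst : Cst d CF CK CB CS AT cT CT c₁ cE c₂ CE A₀ Kε m K₀ ct Q K₃ a₀ C₁ c₃ K) (hd : 3 ≤ d)
    (hCF : 1 ≤ CF) (hCK : 1 ≤ CK) (hCS : 1 ≤ CS) (hCE : 1 ≤ CE) (hA₀ : 1 ≤ A₀) (hKε : 1 ≤ Kε)
    (hcE : 0 < cE) (hcE1 : cE ≤ 1 / 50)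
    (hflo : ∀ (M J : ℕ) [NeZero M] (v : ℝ≥0) (z μ ε p r q : ℝ),
    0 < μ → 0 < ε → ε ≤ 1 / 50 → 0 < v → 0 ≤ p → 0 < r → r ≤ ε →
    gau d M v {V | ¬ FlatE ε z μ V} ≤ ENNReal.ofReal p →
    q = p + 2 * (M : ℝ) ^ d *
      Real.exp (-(r ^ 2 / (CF * v * ε ^ 2 * μ ^ 2 * ((low d M J).card / (M : ℝ) ^ d)))) →
    q ≤ 1 / 4 → 4 * v * μ ^ 2 < ε ^ 2 * (M : ℝ) ^ d →
      ∃ w : ℝ, |w - 1| ≤ 3 * ε ∧
        gau d M v {V | ¬ ∀ x, |lpf J (fun y => om z μ V y - w - gv (1 / μ) V y) x| ≤ r} ≤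
          ENNReal.ofReal q)
    (hkhl : ∀ (M J : ℕ) [NeZero M] (v : ℝ≥0) (w h lam l η τ r B : ℝ)
    (k : ℕ), 1 / 2 ≤ w → w ≤ 2 → 0 < h → h ≤ lam → lam ≤ 1200 * h →
    (J : ℝ) ^ 2 ≤ lam * (M : ℝ) ^ 2 → 0 < η → 0 < τ → 0 ≤ r → 1 ≤ k →
    pm (fun p => if p ∈ low d M J then (mt l η p)⁻¹ else 0) ≤ B →
      gau d M v {V | ¬ KE J (gv h V) w (h - 2 * lam * w) l η τ} ≤
        ENNReal.ofReal (2 * (M : ℝ) ^ d * Real.exp (-(r ^ 2 / 2)) +
          (2 * (J : ℝ) + 1) ^ d * (CK * k * r ^ 2 * v * B / (η * τ ^ 2)) ^ k))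
    (hsms : ∀ (M : ℕ) [NeZero M] (l η κ : ℝ), 0 < η → η ≤ l →
    4 * l ≤ κ → κ ≤ 1 → CS / η ≤ M →
      (η * (κ / l) ^ d ≤ l →
        pm (fun p : Tor d M => if ds p ≤ κ then (mt l η p ^ 2)⁻¹ else 0) ≤
          CS * l ^ (((d : ℝ) - 2) / 2) / η) ∧
      pm (fun p : Tor d M => if ds p ≤ κ then (mt l η p)⁻¹ else 0) ≤
        CS * κ ^ (((d : ℝ) - 2) / 2) * (1 + Real.log (1 / η)))
    {v : ℝ≥0} {σ t z μ ε₀ p lam L G P η τ ε : ℝ} (hσ : σ ≠ 0) (hv : (v : ℝ) = σ ^ 2)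
    (hn : NumF d M' K K₀ A₀ σ t μ ε₀ p lam L G P Kε cE cT)
    (hP : P = lam ^ (((d : ℝ) - 4) / 2)) {Js : ℕ} (hJs1 : (Js : ℝ) ≤ Real.sqrt lam * M')
    (hJ2 : 2 ≤ Real.sqrt lam * M')
    (hJs3 : (Js : ℝ) ^ 2 ≤ lam * (M' : ℝ) ^ 2) (hJsM : (Js : ℝ) ≤ M')
    (hflat : gau d M' v {V | ¬ FlatE ε z μ V} ≤ ENNReal.ofReal p)
    (hε : 0 < ε) (hεcE : ε ≤ cE) (hε2 : ε ^ 2 = Kε * L * (σ ^ 2 * G))
    (hη : η = K₃ * (σ ^ 2 * G) * lam * L ^ (d + 4)) (hη0 : 0 < η) (hηl : η ≤ lam / 2)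
    (hη1 : η ≤ 1) (hinv : 1 / η ≤ Real.exp (2 * L)) (hτ : 0 < τ) (hτ2 : τ ^ 2 = ct / L ^ d) :
    ∃ w r : ℝ, |w - 1| ≤ 3 * ε ∧ 0 ≤ r ∧ r ^ 2 ≤ Q * (σ ^ 2 * G * L) ^ 2 ∧
      ∀ l : ℝ, l = lam - 1 / (μ * w) →
        gau d M' v {V | ¬ (FlatE ε z μ V ∧
          (∀ x, |lpf (2 * Js) (fun y => om z μ V y - w - gv (1 / μ) V y) x| ≤ r) ∧
          KE Js (gv (1 / μ) V) w (1 / μ - 2 * lam * w) l η (τ / 4))} ≤
            ENNReal.ofReal (p + (p + Real.exp (-(A₀ * L)) / 4) + Real.exp (-(A₀ * L)) / 4) := by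
  have hσ2 : 0 < σ ^ 2 := by positivity
  have hL1 := hn.hL1
  have hL0 : 0 < L := by linarith only [hL1]
  have hG0 : 0 < G := by linarith only [hn.hG1]
  have hK100 := hcst.hK100
  have hK0 : 0 ≤ K := by linarith only [hK100]
  have hm1 := hcst.hm0
  have hm0 : 0 < m := by linarith only [hm1]
  have hl0 := hn.hl0
  have hμ0 := hn.hμ0
  have hKe := hn.hKe
  have hd1 : 1 ≤ d := by omega
  have hd' : (3 : ℝ) ≤ d := by exact_mod_cast hd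
  have k11 := hcst.k11
  have heL : 576 ≤ Real.exp L := by linarith only [k11, hKe, hCE, hCS]
  have heL2 : Real.exp L ≤ Real.exp (2 * L) := Real.exp_le_exp.2 (by linarith only [hL1])
  have hD := dens_low (d := d) (M := M') (J := Js) hl0 hJs1 (by linarith only [hJ2])
  rw [← hP] at hD
  set D : ℝ := ((low d M' (2 * Js)).card : ℝ) / (M' : ℝ) ^ d with hDdef
  have hv0 : 0 < v := by
    have : (0 : ℝ) < v := by rw [hv]; exact hσ2
    exact_mod_cast this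
  have hA5 : 5 ≤ Real.exp (A₀ * L) := by
    have h1 : L ≤ A₀ * L := by nlinarith only [hA₀, hL0]
    have h2 := Real.exp_le_exp.2 h1
    linarith only [h2, heL]
  have h2d : (2 : ℝ) ^ (d + 4) * 3 ^ d ≤ Real.exp (2 * L) := by
    linarith only [hcst.k12, hKe, heL2]
  have h2d3 : (2 : ℝ) ^ (d + 3) ≤ Real.exp (2 * L) := by
    refine le_trans ?_ h2d
    have h1 : (1 : ℝ) ≤ 3 ^ d := one_le_pow₀ (by norm_num)
    have h2 : (2 : ℝ) ^ (d + 3) ≤ 2 ^ (d + 4) := pow_le_pow_right₀ (by norm_num) (by omega)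
    have h3 : (0 : ℝ) ≤ 2 ^ (d + 4) := by positivity
    nlinarith only [h1, h2, h3]
  have hrc : m * L * (CF * v * μ ^ 2 * ((low d M' (2 * Js)).card / (M' : ℝ) ^ d)) ≤ 1 := by
    rw [hv]
    have h1 := c_r1 (d := d) (m := m) (L := L) (CF := CF) (σ := σ) (G := G) (μ := μ) (D := D)
      (P := P) (lam := lam) hm0.le hL0.le (by linarith only [hCF]) hG0.le hn.hPG hD hμ0.le hl0.le
      hn.hμl
    have h2 := absorb (j := 1) hcst.k1 hn.hX0.le hL1 (by omega) hK0 hn.hS1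
    rw [pow_one] at h2
    exact h1.trans h2
  have ht0 : 0 < t := by linarith only [hn.ht100]
  have hv2 : 4 * v * μ ^ 2 < ε ^ 2 * (M' : ℝ) ^ d := by
    rw [hv]
    exact v_small hσ hd hL1 hn.hG1 hKε hμ0 hn.hμt ht0 hn.hte heL hn.hMe hn.hM0 hε2
  obtain ⟨w, r, hw, hr0, hr2, hwP⟩ := flo_app hCF hflo M' (2 * Js) v z μ ε p L m K₀ A₀ hμ0 hε
    (hεcE.trans hcE1) hv0 hn.hp hL0 hcst.hm hn.hM2 h2d3 hA5 hm0 hn.hpA hflat hrc hv2
  have hr2' : r ^ 2 ≤ Q * (σ ^ 2 * G * L) ^ 2 := by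
    rw [hr2, hv, hcst.hQ]
    exact c_r hm0.le hL0.le (by linarith only [hCF]) (by linarith only [hKε]) hG0.le hn.hPG hD
      hε2 hμ0.le hl0.le hn.hμl
  refine ⟨w, r, hw, hr0, hr2', fun l hl => ?_⟩
  have hw10 : |w - 1| ≤ 1 / 10 := by linarith only [hw, hεcE, hcE1]
  obtain ⟨hw1, hw2, hl_le, hl_ge⟩ := l_bounds hl0 hμ0 hn.hμl2 hw10 hl
  obtain ⟨hlogη, hlogη0⟩ := log_eta hη0 hη1 hinv
  obtain ⟨kk, hkk0, hkk1, hkk2⟩ := ceil_bounds hm1 hL1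
  set B : ℝ := CS * (40 * d * lam) ^ (((d : ℝ) - 2) / 2) * (1 + Real.log (1 / η)) with hB
  have hB0 : 0 ≤ B := by positivity
  have hPlam : 0 ≤ P := hn.hP0
  have hBle : B ≤ CS * (40 * d) ^ d * (G * lam) * (3 * L) := by
    rw [hB, Real.mul_rpow (by positivity) hl0.le, pw_mul hl0, ← hP]
    have h1 : (40 * (d : ℝ)) ^ (((d : ℝ) - 2) / 2) ≤ (40 * (d : ℝ)) ^ d := by
      rw [← Real.rpow_natCast]
      exact Real.rpow_le_rpow_of_exponent_le (by linarith only [hd']) (by linarith only [hd'])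
    have h2 : 1 + Real.log (1 / η) ≤ 3 * L := by linarith only [hlogη, hL1]
    have h3 := hn.hPG
    calc CS * ((40 * (d : ℝ)) ^ (((d : ℝ) - 2) / 2) * (P * lam)) * (1 + Real.log (1 / η)) ≤
          CS * ((40 * (d : ℝ)) ^ d * (G * lam)) * (3 * L) := by gcongr
      _ = CS * (40 * d) ^ d * (G * lam) * (3 * L) := by ring
  have hCSM : CS / η ≤ M' := by
    calc CS / η = CS * (1 / η) := by ring
      _ ≤ Real.exp L * Real.exp (2 * L) := by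
          gcongr
          linarith only [k11, hKe, hCE]
      _ = Real.exp (3 * L) := by
          rw [← Real.exp_add]
          congr 1
          ring
      _ ≤ Real.exp (60 * L) := Real.exp_le_exp.2 (by linarith only [hL0])
      _ ≤ M' := hn.hMe
  have hpm : pm (fun q : Tor d M' => if q ∈ low d M' Js then (mt l η q)⁻¹ else 0) ≤ B := by
    refine pm_low_le hη0 hJs3 ?_
    refine (hsms M' l η (40 * d * lam) hη0 (by linarith only [hηl, hl_ge]) ?_ hn.hl40 hCSM).2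
    nlinarith only [hl_le, hd', hl0]
  have hsq : Real.sqrt (2 * (m * L)) ^ 2 = 2 * (m * L) := Real.sq_sqrt (by positivity)
  have hkhl' : gau d M' v {V | ¬ KE Js (gv (1 / μ) V) w (1 / μ - 2 * lam * w) l η (τ / 4)} ≤
      ENNReal.ofReal (Real.exp (-(A₀ * L)) / 4) := by
    have hμl := hn.hμl
    have hμl2 := hn.hμl2
    have h1 := hkhl M' Js v w (1 / μ) lam l η (τ / 4) (Real.sqrt (2 * (m * L))) B kk
      (by linarith only [hw1]) (by linarith only [hw2]) (by positivity)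
      (by rw [div_le_iff₀ hμ0]; linarith only [hμl2])
      (by rw [mul_one_div, le_div_iff₀ hμ0]; linarith only [hμl]) hJs3 hη0 (by positivity)
      (Real.sqrt_nonneg _) hkk0 hpm
    refine h1.trans (ENNReal.ofReal_le_ofReal ?_)
    refine khl_num hcst.hm hn.hM2 h2d hsq hkk1 ?_ ?_ hJsM hn.hM0
    · positivity
    · have h2 := c_k (d := d) (k := kk) (K₃ := K₃) (σ := σ) (G := G) (lam := lam) (L := L)
        (η := η) (ct := ct) (CK := CK) (CS := CS) (m := m) (B := B)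
        (r2 := Real.sqrt (2 * (m * L)) ^ 2) (τ2 := (τ / 4) ^ 2) hη hσ hG0 hl0 hL1 hcst.hct0
        (by linarith only [hCK]) (by linarith only [hCS]) hm0.le hkk2 hsq hcst.hK₃1 hBle hB0 (by
          rw [div_pow, hτ2]
          norm_num) hcst.r3
      rw [hv]
      refine h2.trans ?_
      rw [Real.exp_neg]
      rw [one_div]
      refine inv_anti₀ (Real.exp_pos _) ?_
      have := Real.exp_one_lt_d9
      linarith only [this]
  have hA0 : 0 < Real.exp (-(A₀ * L)) := Real.exp_pos _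
  have hp := hn.hp
  exact gau3 (v := v) (fun V : Tor d M' → ℝ => FlatE ε z μ V)
    (fun V => ∀ x, |lpf (2 * Js) (fun y => om z μ V y - w - gv (1 / μ) V y) x| ≤ r)
    (fun V => KE Js (gv (1 / μ) V) w (1 / μ - 2 * lam * w) l η (τ / 4)) hp
    (by positivity) (by positivity) hflat hwP hkhl'


/-- the constant `K` may be enlarged -/
theorem cst_mono {d : ℕ} {CF CK CB CS AT cT CT c₁ cE c₂ CE A₀ Kε m K₀ ct Q K₃ a₀ C₁ c₃ K K' : ℝ}
    (h : Cst d CF CK CB CS AT cT CT c₁ cE c₂ CE A₀ Kε m K₀ ct Q K₃ a₀ C₁ c₃ K) (hK : K ≤ K') :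
    Cst d CF CK CB CS AT cT CT c₁ cE c₂ CE A₀ Kε m K₀ ct Q K₃ a₀ C₁ c₃ K' :=
  ⟨h.hm, h.ha₀, h.hC₁, h.hct, h.hQ, h.hctK, h.hct0, h.hct1, h.hQ0, h.hm0, h.hK₃1, h.hC₁1,
    h.hc₃0, h.hc₃1, h.hc₃2, h.ha₀0, h.hK100.trans hK, h.k1.trans hK, h.k2.trans hK,
    h.k3.trans hK, h.k4.trans hK, h.k5.trans hK, h.k6.trans hK, h.k7.trans hK, h.k8.trans hK,
    h.k9.trans hK, h.k10.trans hK, h.k11.trans hK, h.k12.trans hK, h.k13.trans hK,
    h.k14.trans hK, h.k15.trans hK, h.k16.trans hK, h.r1, h.r2, h.r3⟩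

end Pool.Agent.LE.IR.H93F
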