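import Pool.Agent.Helper93_LIF.CPFa
import Pool.Agent.Helper3_LIR.PIE

/-!
# CPF, part b: the free moves
-/

set_option autoImplicit false

open MeasureTheory ProbabilityTheory Function Filter

open scoped ENNReal BigOperators Topology NNReal

noncomputable section

namespace Pool.Agent.LE.IR.H93F

open Pool.Agent.Anderson hiding box mem_box card_box
open Pool.Agent.Loc Pool.Agent.Mob Pool.Agent.Helper54.Bal
  Pool.Agent.Helper96.EXP Pool.Agent.BED
open Pool.Agent.LE.MN Pool.Agent.LE.CL Pool.Agent.LE.IR.H54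

/-- the length of the free moves -/
theorem exists_r0 {d : ℕ} {CE a₀ C₁ L lam η : ℝ} {ns R₁ : ℕ} (hCE : 1 ≤ CE) (ha₀ : 34 ≤ a₀)
    (hC₁ : C₁ = CE * (a₀ + 6)) (hL : 1 ≤ L) (hl : 0 < lam) (hl1 : lam ≤ 1) (hη : 0 < η)
    (hηl : η ≤ lam / 2) (hns1 : 1 ≤ ns) (hns : (ns : ℝ) ≤ 1 / lam) (hR₁ : C₁ * L ≤ η * R₁) :
    ∃ r₀ : ℕ, 1 ≤ r₀ ∧ 4 * r₀ ≤ R₁ ∧ 7 * CE * L * ns ≤ (r₀ : ℝ) ^ 2 ∧
      (d : ℝ) * r₀ + 1 ≤ (14 * d * CE + 1) * L / Real.sqrt lam := by
  have hns0 : (1 : ℝ) ≤ ns := by exact_mod_cast hns1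
  have hL0 : 0 < L := by linarith
  have hCE0 : 0 < CE := by linarith
  have hs0 : 0 < Real.sqrt lam := Real.sqrt_pos.2 hl
  have hss : Real.sqrt lam ^ 2 = lam := Real.sq_sqrt hl.le
  have hs1 : Real.sqrt lam ≤ 1 := Real.sqrt_le_one.2 hl1
  obtain ⟨A, hA⟩ : ∃ A : ℝ, A = 7 * CE * L * ns := ⟨_, rfl⟩
  have hA7 : 7 ≤ A := by
    rw [hA]
    calc (7 : ℝ) = 7 * 1 * 1 * 1 := by norm_num
      _ ≤ 7 * CE * L * ns := by gcongr
  have hA0 : 0 ≤ A := by linarith
  have hsA : Real.sqrt A ^ 2 = A := Real.sq_sqrt hA0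
  have hsA1 : 1 ≤ Real.sqrt A := by
    rw [Real.one_le_sqrt]
    linarith
  -- `√A ≤ 7 CE L / √lam`
  have hup : Real.sqrt A ≤ 7 * CE * L / Real.sqrt lam := by
    refine Real.sqrt_le_iff.2 ⟨by positivity, ?_⟩
    rw [div_pow, hss, hA]
    have h1 : (7 * CE * L) ≤ (7 * CE * L) ^ 2 := by
      refine le_self_pow₀ ?_ (by norm_num)
      calc (1 : ℝ) ≤ 7 * 1 * 1 := by norm_num
        _ ≤ 7 * CE * L := by gcongr
    calc 7 * CE * L * ns ≤ (7 * CE * L) ^ 2 * (1 / lam) := by gcongr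
      _ = (7 * CE * L) ^ 2 / lam := by ring
  refine ⟨⌈Real.sqrt A⌉₊, ?_, ?_, ?_, ?_⟩
  · exact Nat.one_le_iff_ne_zero.2 (by
      rw [Ne, Nat.ceil_eq_zero, not_le]
      linarith)
  · have h1 : (⌈Real.sqrt A⌉₊ : ℝ) < Real.sqrt A + 1 := Nat.ceil_lt_add_one (Real.sqrt_nonneg _)
    have h2 : Real.sqrt A ≤ 7 * CE * L / lam := by
      refine hup.trans ?_
      refine div_le_div_of_nonneg_left (by positivity) hl ?_
      calc lam = Real.sqrt lam * Real.sqrt lam := by rw [← sq, hss]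
        _ ≤ Real.sqrt lam * 1 := by gcongr
        _ = Real.sqrt lam := mul_one _
    have h3 : 80 * (CE * L / lam) ≤ R₁ := by
      have h4 : C₁ * L / η ≤ R₁ := by
        rw [div_le_iff₀ hη]
        linarith
      refine le_trans ?_ h4
      have h5 : 40 * CE ≤ C₁ := by
        rw [hC₁]
        nlinarith
      have h6 : 0 ≤ C₁ * L := by nlinarith
      calc 80 * (CE * L / lam) = 40 * CE * L / (lam / 2) := by
            field_simp
            ring
        _ ≤ C₁ * L / η := by gcongr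
    have h4 : (4 * (⌈Real.sqrt A⌉₊ : ℝ)) ≤ R₁ := by
      have h5 : 7 * CE * L / lam = 7 * (CE * L / lam) := by ring
      rw [h5] at h2
      linarith
    exact_mod_cast h4
  · have h1 : Real.sqrt A ≤ (⌈Real.sqrt A⌉₊ : ℝ) := Nat.le_ceil _
    calc 7 * CE * L * ns = Real.sqrt A ^ 2 := by rw [hsA, hA]
      _ ≤ (⌈Real.sqrt A⌉₊ : ℝ) ^ 2 := by gcongr
  · have h1 : (⌈Real.sqrt A⌉₊ : ℝ) < Real.sqrt A + 1 := Nat.ceil_lt_add_one (Real.sqrt_nonneg _)
    have h2 : (⌈Real.sqrt A⌉₊ : ℝ) ≤ 2 * (7 * CE * L / Real.sqrt lam) := by linarith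
    have h3 : 1 ≤ L / Real.sqrt lam := by
      rw [le_div_iff₀ hs0]
      linarith
    calc (d : ℝ) * ⌈Real.sqrt A⌉₊ + 1 ≤ d * (2 * (7 * CE * L / Real.sqrt lam)) +
          L / Real.sqrt lam := by gcongr
      _ = (14 * d * CE + 1) * L / Real.sqrt lam := by ring

theorem hop_ne {d : ℕ} (x : Site d) (i : Fin d) {a : ℤ} (ha : a = 1 ∨ a = -1) :
    hop x (x + Pi.single i a) ≠ 0 := by
  have h0 : ∀ j : Fin d, (0 : ℝ) ≤ ((if x + Pi.single i a = x + Pi.single j 1 then 1 else 0) +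
      (if x + Pi.single i a = x - Pi.single j 1 then 1 else 0)) := by
    intro j
    split_ifs <;> norm_num
  have h1 : (1 : ℝ) ≤ ((if x + Pi.single i a = x + Pi.single i 1 then 1 else 0) +
      (if x + Pi.single i a = x - Pi.single i 1 then 1 else 0)) := by
    rcases ha with ha | ha
    · rw [ha, if_pos rfl]
      split_ifs <;> norm_num
    · have e : x + Pi.single i a = x - Pi.single i 1 := by
        rw [ha, Pi.single_neg, sub_eq_add_neg]
      rw [if_pos e]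
      split_ifs <;> norm_num
  have h2 := Finset.single_le_sum (fun j _ => h0 j) (Finset.mem_univ i)
  unfold hop
  have : (1 : ℝ) ≤ ∑ j : Fin d, ((if x + Pi.single i a = x + Pi.single j 1 then 1 else 0) +
      (if x + Pi.single i a = x - Pi.single j 1 then 1 else 0)) := h1.trans h2
  linarith

theorem box_step {d : ℕ} {x b : Site d} {R : ℕ} (hx : x ∈ box b R) (i : Fin d) {a : ℤ}
    (ha : a = 1 ∨ a = -1) : x + Pi.single i a ∈ box b (R + 1) := by
  rw [mem_box] at hx ⊢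
  unfold sd at hx ⊢
  refine Finset.sup_le fun j _ => ?_
  have h1 := Finset.le_sup (f := fun i => (b i - x i).natAbs) (Finset.mem_univ j)
  have h2 : (b j - x j).natAbs ≤ R := le_trans h1 hx
  have h3 : (Pi.single i a : Site d) j = a ∨ (Pi.single i a : Site d) j = 0 := by
    by_cases hij : j = i
    · left
      rw [hij, Pi.single_eq_same]
    · right
      rw [Pi.single_eq_of_ne hij]
  rw [Pi.add_apply]
  rcases h3 with h3 | h3 <;> rcases ha with ha | ha <;> rw [h3] <;> omega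

/-- the neighbours are linked -/
theorem badN {d : ℕ} {A C : ℝ} {σ E τ : ℝ} {N R : ℕ} {b : Site d}
    (h : ∀ x y : Site d, x ∈ box (0 : Site d) N → y ∈ box (0 : Site d) N → hop x y ≠ 0 →
      PP d (gl σ) {V | ¬ τ ≤ |gr V (box 0 N) E x y|} ≤
        ENNReal.ofReal (C * |σ| ^ (-A) * τ ^ (1 / 4 : ℝ))) (hC : 0 ≤ C) (hτ : 0 ≤ τ)
    (hbox : box b (R + 2) ⊆ box 0 N) :
    PP d (gl σ) {V | ¬ ∀ x ∈ box b (R + 1), ∀ i : Fin d,
      τ ≤ |gr V (box 0 N) E x (x + Pi.single i 1)| ∧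
      τ ≤ |gr V (box 0 N) E x (x - Pi.single i 1)|} ≤
        ENNReal.ofReal ((2 * R + 3 : ℝ) ^ d * (d * (2 * (C * |σ| ^ (-A) * τ ^ (1 / 4 : ℝ))))) := by
  obtain ⟨q, hq⟩ : ∃ q : ℝ, q = C * |σ| ^ (-A) * τ ^ (1 / 4 : ℝ) := ⟨_, rfl⟩
  have hq0 : 0 ≤ q := by rw [hq]; positivity
  rw [← hq] at h ⊢
  have hsub : {V : Site d → ℝ | ¬ ∀ x ∈ box b (R + 1), ∀ i : Fin d,
      τ ≤ |gr V (box 0 N) E x (x + Pi.single i 1)| ∧
      τ ≤ |gr V (box 0 N) E x (x - Pi.single i 1)|} ⊆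
      ⋃ x ∈ box b (R + 1), ⋃ i ∈ (Finset.univ : Finset (Fin d)),
        ({V | ¬ τ ≤ |gr V (box 0 N) E x (x + Pi.single i 1)|} ∪
          {V | ¬ τ ≤ |gr V (box 0 N) E x (x + Pi.single i (-1))|}) := by
    intro V hV
    by_contra hcon
    simp only [Set.mem_iUnion, not_exists, Set.mem_union, not_or, Set.mem_ofPred_eq, not_not]
      at hcon
    refine hV fun x hx i => ?_
    obtain ⟨h1, h2⟩ := hcon x hx i (Finset.mem_univ i)
    refine ⟨h1, ?_⟩
    have e : x + Pi.single i (-1) = x - Pi.single i 1 := by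
      rw [Pi.single_neg, sub_eq_add_neg]
    rwa [e] at h2
  refine (measure_mono hsub).trans ?_
  refine (measure_biUnion_finset_le _ _).trans ?_
  have h1 : ∀ x ∈ box b (R + 1), PP d (gl σ) (⋃ i ∈ (Finset.univ : Finset (Fin d)),
        ({V | ¬ τ ≤ |gr V (box 0 N) E x (x + Pi.single i 1)|} ∪
          {V | ¬ τ ≤ |gr V (box 0 N) E x (x + Pi.single i (-1))|})) ≤
      ENNReal.ofReal (d * (2 * q)) := by
    intro x hx
    refine (measure_biUnion_finset_le _ _).trans ?_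
    have h2 : ∀ i ∈ (Finset.univ : Finset (Fin d)), PP d (gl σ)
        ({V | ¬ τ ≤ |gr V (box 0 N) E x (x + Pi.single i 1)|} ∪
          {V | ¬ τ ≤ |gr V (box 0 N) E x (x + Pi.single i (-1))|}) ≤ ENNReal.ofReal (2 * q) := by
      intro i _
      have hx0 : x ∈ box (0 : Site d) N := hbox (box_mono b (by omega) hx)
      have h3 := h x _ hx0 (hbox (box_step hx i (Or.inl rfl))) (hop_ne x i (Or.inl rfl))
      have h4 := h x _ hx0 (hbox (box_step hx i (Or.inr rfl))) (hop_ne x i (Or.inr rfl))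
      refine (measure_union_le _ _).trans ((add_le_add h3 h4).trans (le_of_eq ?_))
      rw [← ENNReal.ofReal_add hq0 hq0]
      congr 1
      ring
    refine (Finset.sum_le_sum h2).trans (le_of_eq ?_)
    rw [Finset.sum_const, Finset.card_univ, Fintype.card_fin, nsmul_eq_mul,
      ENNReal.ofReal_mul (Nat.cast_nonneg d), ENNReal.ofReal_natCast]
  refine (Finset.sum_le_sum h1).trans (le_of_eq ?_)
  have e : (2 * (R : ℝ) + 3) ^ d = (((2 * (R + 1) + 1) ^ d : ℕ) : ℝ) := by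
    push_cast
    ring_nf
  rw [e]
  calc ∑ _x ∈ box b (R + 1), ENNReal.ofReal (d * (2 * q)) =
        ENNReal.ofReal (((2 * (R + 1) + 1) ^ d : ℕ) : ℝ) * ENNReal.ofReal (d * (2 * q)) := by
        rw [ENNReal.ofReal_natCast, Finset.sum_const, card_box, nsmul_eq_mul]
    _ = _ := by rw [← ENNReal.ofReal_mul (Nat.cast_nonneg _)]

end Pool.Agent.LE.IR.H93F
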